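import Pool.Agent.Helper16.KS.Basic

/-!
# Project KS: pointwise bounds of the weights (WoLe, OrdLe, CtlLe, WpLe)
-/

set_option autoImplicit false
open scoped Classical

namespace Pool.Agent.Helper59.KS

open Pool.Agent.Helper16.KS Pool.Agent.Helper16.KS.Sys

theorem woLe : WoLe := by
  intro S
  refine ⟨max S.K 1, fun k0 hk0 R hR k hk j hj m hm => ⟨S.wo_nonneg R k j m, ?_⟩⟩
  have hKk : S.K ≤ k := (le_max_left _ _).trans (hk0.trans hk)
  have hk1 : 1 ≤ k := (le_max_right _ _).trans (hk0.trans hk)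
  have hkR : (0 : ℝ) < k := by exact_mod_cast hk1
  have hj' := (S.mem_badc).1 hj
  have h1 := hR.lower k hk j hj
  have h2 := S.many k hKk j hj'.1 hj'.2
  have hc := S.c1_pos
  have hm0 : m ≠ 0 := by omega
  have hmR : (0 : ℝ) < m := by exact_mod_cast hm
  have he : (0 : ℝ) < 2 ^ ec S.d k := by positivity
  have hNN : S.c1 * 2 ^ ec S.d k / (2 * (k : ℝ) ^ 2) ≤ S.NN R k j := by
    refine le_trans ?_ h1
    rw [div_le_div_iff₀ (by positivity) (by positivity)]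
    rw [div_le_iff₀ (by positivity)] at h2
    nlinarith
  have hB : 0 < S.c1 * 2 ^ ec S.d k / (2 * (k : ℝ) ^ 2) := by positivity
  have hpb : 0 < S.pr m * S.base m := mul_pos (S.pr_pos hm0) (S.base_pos hm0)
  have hmi : (m : ℝ) ^ (1 - S.s + S.tau) * (S.pr m * S.base m) = 1 := by
    rw [S.pr_mul_base hm0, ← Real.rpow_add hmR]
    have : 1 - S.s + S.tau + (S.s - 1 - S.tau) = 0 := by ring
    rw [this, Real.rpow_zero]
  unfold Sys.wo Sys.wd Sys.G
  rw [div_le_iff₀ (by rw [mul_assoc]; exact mul_pos (hB.trans_le hNN) hpb)]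
  have hx : 0 ≤ (2 : ℝ) ^ ((S.s - 1) * k) := by positivity
  calc 2 ^ ec S.d k * (2 : ℝ) ^ ((S.s - 1) * k) / (k : ℝ) ^ 4
      = 2 / S.c1 / (k : ℝ) ^ 2 * (2 : ℝ) ^ ((S.s - 1) * k) *
          (S.c1 * 2 ^ ec S.d k / (2 * (k : ℝ) ^ 2)) := by
        field_simp
    _ ≤ 2 / S.c1 / (k : ℝ) ^ 2 * (2 : ℝ) ^ ((S.s - 1) * k) * S.NN R k j := by
        gcongr
    _ = 2 / S.c1 / (k : ℝ) ^ 2 * (2 : ℝ) ^ ((S.s - 1) * k) * S.NN R k j *
          ((m : ℝ) ^ (1 - S.s + S.tau) * (S.pr m * S.base m)) := by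
        rw [hmi, mul_one]
    _ = 2 / S.c1 / (k : ℝ) ^ 2 * ((2 : ℝ) ^ ((S.s - 1) * k) * (m : ℝ) ^ (1 - S.s + S.tau)) *
          (S.NN R k j * S.pr m * S.base m) := by ring

theorem ordLe : OrdLe := by
  intro S
  have hc := S.c1_pos
  have hc1 := S.c1_le
  have hs1 : S.s - 1 < 0 := by
    have := S.s_lt
    norm_num at this
    linarith
  have hC1 : (1 : ℝ) ≤ 16 / S.c1 := by
    rw [le_div_iff₀ hc]
    linarith
  refine ⟨16 / S.c1, max S.K 1, fun k0 hk0 p hp => ⟨S.ordw_nonneg k0 p, ?_⟩⟩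
  have hK0 : S.K ≤ k0 := (le_max_left _ _).trans hk0
  have hk01 : 1 ≤ k0 := (le_max_right _ _).trans hk0
  have hpR : (1 : ℝ) < p := by exact_mod_cast hp.one_lt
  have hp0 : (0 : ℝ) < p := by linarith
  have hlog : 0 < Real.log p := Real.log_pos hpR
  have hlog2 : Real.log 2 ≤ 1 := by
    have := Real.log_two_lt_d9
    linarith
  have hlog2' : 0 < Real.log 2 := Real.log_pos (by norm_num)
  -- upper bound of the logarithm
  have hlogle : ∀ n : ℕ, p < 2 ^ n → Real.log p ≤ n := by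
    intro n hn
    have h1 : (p : ℝ) ≤ 2 ^ n := by exact_mod_cast hn.le
    have h2 := Real.log_le_log hp0 h1
    rw [Real.log_pow] at h2
    refine h2.trans ?_
    have h3 : (0 : ℝ) ≤ n := Nat.cast_nonneg n
    nlinarith
  have hpow : ∀ n : ℕ, p < 2 ^ n → (2 : ℝ) ^ ((S.s - 1) * n) ≤ (p : ℝ) ^ (S.s - 1) := by
    intro n hn
    have h1 : (p : ℝ) ≤ (2 : ℝ) ^ (n : ℝ) := by
      rw [Real.rpow_natCast]
      exact_mod_cast hn.le
    rw [mul_comm, Real.rpow_mul (by norm_num)]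
    exact Real.rpow_le_rpow_of_nonpos hp0 h1 hs1.le
  unfold Sys.ordw
  split_ifs with h1 h2 h3
  · positivity
  · unfold Sys.phi0
    have hk0R : (0 : ℝ) < k0 := by exact_mod_cast hk01
    calc (2 : ℝ) ^ ((S.s - 1) * k0) / (k0 : ℝ) ^ 3
        ≤ (p : ℝ) ^ (S.s - 1) / Real.log p ^ 3 := by
          refine div_le_div₀ (by positivity) (hpow k0 h2) (by positivity) ?_
          exact pow_le_pow_left₀ hlog.le (hlogle k0 h2) 3
      _ = 1 * ((p : ℝ) ^ (S.s - 1) / Real.log p ^ 3) := (one_mul _).symm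
      _ ≤ 16 / S.c1 * ((p : ℝ) ^ (S.s - 1) / Real.log p ^ 3) := by
          exact mul_le_mul_of_nonneg_right hC1 (by positivity)
  · positivity
  · set k := Nat.log 2 p with hkdef
    have hkk0 : k0 ≤ k := by
      rw [hkdef]
      exact Nat.le_log_of_pow_le (by norm_num) (by omega)
    have hk1 : 1 ≤ k := hk01.trans hkk0
    have hkR : (0 : ℝ) < k := by exact_mod_cast hk1
    have hlt : p < 2 ^ (k + 1) := Nat.lt_pow_succ_log_self (by norm_num) p
    have hg := S.good k (hK0.trans hkk0) (S.idx p) (S.idx_lt p) h3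
    have he : (0 : ℝ) < 2 ^ ec S.d k := by positivity
    have hnp : 0 < S.c1 * 2 ^ ec S.d k / k := by positivity
    have hx : 0 < (2 : ℝ) ^ ((S.s - 1) * k) := by positivity
    have h4 : (2 : ℝ) ^ ((S.s - 1) * k) ≤ 2 * (p : ℝ) ^ (S.s - 1) := by
      have h5 := hpow (k + 1) hlt
      have h6 : (2 : ℝ) ^ ((S.s - 1) * k) =
          (2 : ℝ) ^ ((S.s - 1) * ((k + 1 : ℕ) : ℝ)) * (2 : ℝ) ^ (1 - S.s) := by
        rw [← Real.rpow_add (by norm_num)]
        congr 1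
        push_cast
        ring
      have h7 : (2 : ℝ) ^ (1 - S.s) ≤ 2 := by
        calc (2 : ℝ) ^ (1 - S.s) ≤ (2 : ℝ) ^ (1 : ℝ) :=
              Real.rpow_le_rpow_of_exponent_le (by norm_num) (by have := S.s_pos; linarith)
          _ = 2 := Real.rpow_one 2
      rw [h6]
      calc (2 : ℝ) ^ ((S.s - 1) * ((k + 1 : ℕ) : ℝ)) * (2 : ℝ) ^ (1 - S.s)
          ≤ (p : ℝ) ^ (S.s - 1) * 2 := by gcongr
        _ = 2 * (p : ℝ) ^ (S.s - 1) := mul_comm _ _
    have h8 : Real.log p ^ 3 ≤ 8 * (k : ℝ) ^ 3 := by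
      have h9 : Real.log p ≤ 2 * k := by
        have := hlogle (k + 1) hlt
        push_cast at this
        have : (1 : ℝ) ≤ k := by exact_mod_cast hk1
        linarith
      calc Real.log p ^ 3 ≤ (2 * (k : ℝ)) ^ 3 := pow_le_pow_left₀ hlog.le h9 3
        _ = 8 * (k : ℝ) ^ 3 := by ring
    unfold Sys.G
    calc 2 ^ ec S.d k * (2 : ℝ) ^ ((S.s - 1) * k) / (k : ℝ) ^ 4 / (npr S.d k (S.idx p) : ℝ)
        ≤ 2 ^ ec S.d k * (2 : ℝ) ^ ((S.s - 1) * k) / (k : ℝ) ^ 4 / (S.c1 * 2 ^ ec S.d k / k) := by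
          gcongr
      _ = (2 : ℝ) ^ ((S.s - 1) * k) * (8 / (8 * (k : ℝ) ^ 3)) / S.c1 := by
          field_simp
      _ ≤ (2 * (p : ℝ) ^ (S.s - 1)) * (8 / Real.log p ^ 3) / S.c1 := by
          gcongr
      _ = 16 / S.c1 * ((p : ℝ) ^ (S.s - 1) / Real.log p ^ 3) := by ring

/-- one owner -/
theorem wd_le (S : Sys) {k j q : ℕ} (hk : S.K ≤ k) (hj : j ∈ S.badc k) {x : ℕ × ℕ}
    (hx : x ∈ S.Cand k j) (hq : x.1 = q) :
    S.wd k x.2 ≤ 2 * (q : ℝ) ^ (S.s - 1 + 2 * S.tau) := by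
  obtain ⟨hp, -, -, hm1, -, -, hlt, hge, -⟩ := S.cand_facts hk hj hx
  rw [hq] at hp hlt hge
  have hs := S.s_pos
  have hs' : S.s < 1 / 2 := by
    have := S.s_lt
    norm_num at this
    linarith
  have ht := S.tau_pos
  have hts : S.tau ≤ S.s := by
    have := S.tau_le_s
    have h1 : S.s / 10 ^ 6 ≤ S.s := by
      rw [div_le_iff₀ (by positivity)]
      nlinarith
    linarith
  have hq0 : (0 : ℝ) < q := by exact_mod_cast hp.pos
  have hm0 : (0 : ℝ) < x.2 := by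
    have : 0 < x.2 := by omega
    exact_mod_cast this
  have hprod : (x.2 : ℝ) ≤ (2 : ℝ) ^ ((k : ℝ) + 1) / q := by
    rw [le_div_iff₀ hq0]
    have h1 : (q : ℝ) * x.2 ≤ 2 ^ (k + 1) := by exact_mod_cast hlt.le
    have h2 : (2 : ℝ) ^ ((k : ℝ) + 1) = 2 ^ (k + 1) := by
      rw [← Nat.cast_succ, Real.rpow_natCast]
    rw [h2]
    linarith
  have hexp : 0 < 1 - S.s + S.tau := by linarith
  have h1 : (x.2 : ℝ) ^ (1 - S.s + S.tau) ≤
      (2 : ℝ) ^ (((k : ℝ) + 1) * (1 - S.s + S.tau)) * (q : ℝ) ^ (S.s - 1 - S.tau) := by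
    calc (x.2 : ℝ) ^ (1 - S.s + S.tau) ≤ ((2 : ℝ) ^ ((k : ℝ) + 1) / q) ^ (1 - S.s + S.tau) :=
          Real.rpow_le_rpow hm0.le hprod hexp.le
      _ = (2 : ℝ) ^ (((k : ℝ) + 1) * (1 - S.s + S.tau)) * (q : ℝ) ^ (S.s - 1 - S.tau) := by
          rw [Real.div_rpow (by positivity) hq0.le, ← Real.rpow_mul (by norm_num), div_eq_mul_inv,
            ← Real.rpow_neg hq0.le]
          congr 2
          ring
  have h2 : (2 : ℝ) ^ (S.tau * k) ≤ (q : ℝ) ^ (3 * S.tau) := by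
    calc (2 : ℝ) ^ (S.tau * k) = ((2 : ℝ) ^ ((k : ℝ) / 3)) ^ (3 * S.tau) := by
          rw [← Real.rpow_mul (by norm_num)]
          congr 1
          ring
      _ ≤ (q : ℝ) ^ (3 * S.tau) := Real.rpow_le_rpow (by positivity) hge (by positivity)
  unfold Sys.wd
  calc (2 : ℝ) ^ ((S.s - 1) * k) * (x.2 : ℝ) ^ (1 - S.s + S.tau)
      ≤ (2 : ℝ) ^ ((S.s - 1) * k) *
        ((2 : ℝ) ^ (((k : ℝ) + 1) * (1 - S.s + S.tau)) * (q : ℝ) ^ (S.s - 1 - S.tau)) := by
        gcongr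
    _ = ((2 : ℝ) ^ (1 - S.s + S.tau) * (2 : ℝ) ^ (S.tau * k)) * (q : ℝ) ^ (S.s - 1 - S.tau) := by
        rw [← mul_assoc, ← Real.rpow_add (by norm_num), ← Real.rpow_add (by norm_num)]
        congr 2
        ring
    _ ≤ (2 * (q : ℝ) ^ (3 * S.tau)) * (q : ℝ) ^ (S.s - 1 - S.tau) := by
        have h3 : (2 : ℝ) ^ (1 - S.s + S.tau) ≤ 2 := by
          calc (2 : ℝ) ^ (1 - S.s + S.tau) ≤ (2 : ℝ) ^ (1 : ℝ) :=
                Real.rpow_le_rpow_of_exponent_le (by norm_num) (by linarith)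
            _ = 2 := Real.rpow_one 2
        gcongr
    _ = 2 * (q : ℝ) ^ (S.s - 1 + 2 * S.tau) := by
        rw [mul_assoc, ← Real.rpow_add hq0]
        congr 2
        ring

theorem ctlLe : CtlLe := by
  intro S
  obtain ⟨K1, hK1⟩ := woLe S
  have hc := S.c1_pos
  obtain ⟨K2, hK2⟩ := exists_nat_gt (8 / S.c1)
  refine ⟨max (max S.K K1) (max K2 1), fun k0 hk0 R hR q k1 hk1 => ⟨S.ctl_nonneg _ _ _ _, ?_, ?_⟩⟩
  · simp only [max_le_iff] at hk0
    obtain ⟨⟨a1, a2⟩, a3, a4⟩ := hk0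
    have hk0R : (1 : ℝ) ≤ k0 := by exact_mod_cast a4
    have hmono := S.ctl_mono (k0 := k0) hk1 R q
    have hτ := S.tau_pos
    -- bound of the sum over all owners
    have hsum : S.ctl k0 (top q) R q ≤
        (S.own k0 R q : ℝ) * (2 / S.c1 / (k0 : ℝ) ^ 2 * (2 * (q : ℝ) ^ (S.s - 1 + 2 * S.tau))) := by
      unfold Sys.ctl Sys.own Sys.cw
      push_cast
      rw [Finset.sum_mul]
      refine Finset.sum_le_sum fun k hk => ?_
      rw [Finset.sum_mul]
      refine Finset.sum_le_sum fun j hj => ?_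
      rw [← nsmul_eq_mul]
      refine Finset.sum_le_card_nsmul _ _ _ fun x hx => ?_
      rw [Finset.mem_filter, S.mem_act] at hx
      obtain ⟨⟨hx1, hx2⟩, hx3⟩ := hx
      have hkk := (Finset.mem_Ico.1 hk).1
      have hKk : S.K ≤ k := a1.trans hkk
      have hm1 := (S.cand_facts hKk hj hx1).2.2.2.1
      have h1 := (hK1 k0 a2 R hR k hkk j hj x.2 hm1.le).2
      have h2 := wd_le S hKk hj hx1 hx3
      have h3 : 2 / S.c1 / (k : ℝ) ^ 2 ≤ 2 / S.c1 / (k0 : ℝ) ^ 2 := by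
        have : (k0 : ℝ) ≤ k := by exact_mod_cast hkk
        gcongr
      calc S.wo R k j x.2 ≤ 2 / S.c1 / (k : ℝ) ^ 2 * S.wd k x.2 := h1
        _ ≤ 2 / S.c1 / (k0 : ℝ) ^ 2 * (2 * (q : ℝ) ^ (S.s - 1 + 2 * S.tau)) := by
            refine mul_le_mul h3 h2 (S.wd_nonneg _ _) (by positivity)
    rcases Nat.eq_zero_or_pos q with hq | hq
    · -- no owners
      subst hq
      have h0 : S.ctl k0 (top 0) R 0 = 0 := by
        unfold Sys.ctl Sys.cw
        refine Finset.sum_eq_zero fun k hk => Finset.sum_eq_zero fun j hj => ?_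
        refine Finset.sum_eq_zero fun x hx => ?_
        rw [Finset.mem_filter, S.mem_act] at hx
        obtain ⟨⟨hx1, hx2⟩, hx3⟩ := hx
        have hkk := (Finset.mem_Ico.1 hk).1
        have := (S.cand_facts (a1.trans hkk) hj hx1).1
        rw [hx3] at this
        exact absurd this Nat.not_prime_zero
      have h1 : S.ctl k0 k1 R 0 = 0 := le_antisymm (hmono.trans h0.le) (S.ctl_nonneg _ _ _ _)
      rw [h1, mul_zero]
      exact Real.rpow_nonneg (Nat.cast_nonneg _) _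
    · have hqR : (0 : ℝ) < q := by exact_mod_cast hq
      have hq1 : (1 : ℝ) ≤ q := by exact_mod_cast hq
      have hown := hR.mult q
      have hk2 : 8 / S.c1 ≤ (k0 : ℝ) ^ 2 := by
        have h1 : (K2 : ℝ) ≤ k0 := by exact_mod_cast a3
        nlinarith
      have h8 : 8 / S.c1 / (k0 : ℝ) ^ 2 ≤ 1 := by
        rw [div_le_one (by positivity)]
        exact hk2
      calc 2 * S.ctl k0 k1 R q ≤ 2 * ((S.own k0 R q : ℝ) *
            (2 / S.c1 / (k0 : ℝ) ^ 2 * (2 * (q : ℝ) ^ (S.s - 1 + 2 * S.tau)))) := by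
            have := hmono.trans hsum
            linarith
        _ ≤ 2 * ((q : ℝ) ^ S.tau *
            (2 / S.c1 / (k0 : ℝ) ^ 2 * (2 * (q : ℝ) ^ (S.s - 1 + 2 * S.tau)))) := by
            gcongr
        _ = 8 / S.c1 / (k0 : ℝ) ^ 2 * ((q : ℝ) ^ S.tau * (q : ℝ) ^ (S.s - 1 + 2 * S.tau)) := by
            ring
        _ ≤ 1 * ((q : ℝ) ^ S.tau * (q : ℝ) ^ (S.s - 1 + 2 * S.tau)) := by
            gcongr
        _ = (q : ℝ) ^ (S.s - 1 + 3 * S.tau) := by
            rw [one_mul, ← Real.rpow_add hqR]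
            congr 1
            ring
        _ ≤ (q : ℝ) ^ (S.s - 1 + 5 * S.tau) :=
            Real.rpow_le_rpow_of_exponent_le hq1 (by linarith)
  · intro hq
    simp only [max_le_iff] at hk0
    obtain ⟨⟨a1, a2⟩, a3, a4⟩ := hk0
    unfold Sys.ctl Sys.cw
    refine Finset.sum_eq_zero fun k hk => Finset.sum_eq_zero fun j hj => ?_
    refine Finset.sum_eq_zero fun x hx => ?_
    rw [Finset.mem_filter, S.mem_act] at hx
    obtain ⟨⟨hx1, hx2⟩, hx3⟩ := hx
    have hkk := (Finset.mem_Ico.1 hk).1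
    have h1 := (S.cand_facts (a1.trans hkk) hj hx1).2.2.2.2.2.2.2.1
    rw [hx3] at h1
    have h2 : (2 : ℝ) ^ ((k0 : ℝ) / 3) ≤ (2 : ℝ) ^ ((k : ℝ) / 3) := by
      refine Real.rpow_le_rpow_of_exponent_le (by norm_num) ?_
      have : (k0 : ℝ) ≤ k := by exact_mod_cast hkk
      linarith
    linarith

theorem wpLe : WpLe := by
  intro S
  obtain ⟨C, K1, hK1⟩ := ordLe S
  obtain ⟨K2, hK2⟩ := ctlLe S
  have hτ := S.tau_pos
  obtain ⟨K3, hK3⟩ := exists_nat_gt (5 / S.tau)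
  obtain ⟨K4, hK4⟩ := exists_nat_gt (10 * (2 * |C| + 1))
  refine ⟨max (max K1 K2) (max (max K3 K4) 2), fun k0 hk0 R hR p hp => ⟨S.Wp_nonneg _ _ _, ?_⟩⟩
  simp only [max_le_iff] at hk0
  obtain ⟨⟨a1, a2⟩, ⟨a3, a4⟩, a5⟩ := hk0
  have hk0R : (2 : ℝ) ≤ k0 := by exact_mod_cast a5
  have hpR : (1 : ℝ) < p := by exact_mod_cast hp.one_lt
  have hp0 : (0 : ℝ) < p := by linarith
  unfold Sys.Fh
  split_ifs with h1
  · -- everything vanishes
    have hb : S.bR R p = 0 := by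
      unfold Sys.bR
      rw [if_neg]
      intro hpR'
      exact absurd (hR.prime p hpR').2 (not_le.2 h1)
    have ho : S.ordw k0 p = 0 := by
      unfold Sys.ordw
      rw [if_pos]
      have h2 : (p : ℝ) < (2 : ℝ) ^ ((k0 - 1 : ℕ) : ℝ) := by
        refine h1.trans_le (Real.rpow_le_rpow_of_exponent_le (by norm_num) ?_)
        rw [Nat.cast_sub (by omega)]
        push_cast
        linarith
      rw [Real.rpow_natCast] at h2
      exact_mod_cast h2
    have hct : S.ctl k0 (top p) R p = 0 := by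
      refine (hK2 k0 a2 R hR p (top p) le_rfl).2.2 (h1.trans_le ?_)
      refine Real.rpow_le_rpow_of_exponent_le (by norm_num) ?_
      linarith
    unfold Sys.Wp
    rw [hb, ho, hct]
    simp
  · rw [not_lt] at h1
    have ho := (hK1 k0 a1 p hp).2
    have hct := (hK2 k0 a2 R hR p (top p) le_rfl).2.1
    have hlog2 : (1 : ℝ) / 2 ≤ Real.log 2 := by
      have := Real.log_two_gt_d9
      linarith
    have hlog : (k0 : ℝ) / 10 ≤ Real.log p := by
      have h2 := Real.log_le_log (by positivity) h1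
      rw [Real.log_rpow (by norm_num)] at h2
      nlinarith
    have hlogC : 2 * |C| + 1 ≤ Real.log p := by
      have h3 : (K4 : ℝ) ≤ k0 := by exact_mod_cast a4
      linarith
    have hC0 : 0 ≤ |C| := abs_nonneg C
    have hlog1 : 1 ≤ Real.log p := by linarith
    have hlog3 : 2 * |C| ≤ Real.log p ^ 3 := by
      have h4 : Real.log p ≤ Real.log p ^ 3 := le_self_pow₀ hlog1 (by norm_num)
      linarith
    have hpτ : 2 ≤ (p : ℝ) ^ S.tau := by
      calc (2 : ℝ) = (2 : ℝ) ^ (1 : ℝ) := (Real.rpow_one 2).symm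
        _ ≤ (2 : ℝ) ^ ((k0 : ℝ) / 5 * S.tau) := by
            refine Real.rpow_le_rpow_of_exponent_le (by norm_num) ?_
            have h5 : 5 / S.tau ≤ k0 := hK3.le.trans (by exact_mod_cast a3)
            rw [div_le_iff₀ hτ] at h5
            linarith
        _ = ((2 : ℝ) ^ ((k0 : ℝ) / 5)) ^ S.tau := by rw [Real.rpow_mul (by norm_num)]
        _ ≤ (p : ℝ) ^ S.tau := Real.rpow_le_rpow (by positivity) h1 hτ.le
    have hA : 0 < (p : ℝ) ^ (S.s - 1) := by positivity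
    have hB : (p : ℝ) ^ (S.s - 1) ≤ (p : ℝ) ^ (S.s - 1 + 5 * S.tau) :=
      Real.rpow_le_rpow_of_exponent_le hpR.le (by linarith)
    have ho2 : 2 * S.ordw k0 p ≤ (p : ℝ) ^ (S.s - 1) := by
      have h6 : C * ((p : ℝ) ^ (S.s - 1) / Real.log p ^ 3) ≤
          |C| * ((p : ℝ) ^ (S.s - 1) / Real.log p ^ 3) :=
        mul_le_mul_of_nonneg_right (le_abs_self C) (by positivity)
      have h7 : 2 * (|C| * ((p : ℝ) ^ (S.s - 1) / Real.log p ^ 3)) ≤ (p : ℝ) ^ (S.s - 1) := by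
        have h8 : 2 * (|C| * ((p : ℝ) ^ (S.s - 1) / Real.log p ^ 3)) =
            (p : ℝ) ^ (S.s - 1) * (2 * |C|) / Real.log p ^ 3 := by ring
        rw [h8, div_le_iff₀ (by positivity)]
        exact mul_le_mul_of_nonneg_left hlog3 hA.le
      linarith
    have hG : 2 * (p : ℝ) ^ (S.s - 1 + 5 * S.tau) ≤ S.gam p := by
      unfold Sys.gam
      have h9 : S.s - 1 + 6 * S.tau = S.tau + (S.s - 1 + 5 * S.tau) := by ring
      rw [h9, Real.rpow_add hp0 S.tau]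
      exact mul_le_mul_of_nonneg_right hpτ (by positivity)
    unfold Sys.Wp
    linarith

end Pool.Agent.Helper59.KS
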